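import Mathlib

namespace Pool.Agent.Results.MP_201e5f_co.Cex

open Finset

/-- a loopless multigraph on `Fin n` with edges `Fin m` (edge `e` joins `u e` and `v e`), with a
biorientation: `fwd e` says the arc `(u e, v e)` is present, `bwd e` the arc `(v e, u e)` -/
structure Bi (n m : ℕ) where
  u : Fin m → Fin n
  v : Fin m → Fin n
  ne : ∀ e, u e ≠ v e
  fwd : Fin m → Bool
  bwd : Fin m → Bool
  some : ∀ e, fwd e = true ∨ bwd e = true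

variable {n m : ℕ}

def Bi.Arc (D : Bi n m) (a b : Fin n) : Prop :=
  ∃ e, (D.u e = a ∧ D.v e = b ∧ D.fwd e = true) ∨ (D.v e = a ∧ D.u e = b ∧ D.bwd e = true)

def Bi.outdeg (D : Bi n m) (a : Fin n) : ℕ :=
  (univ.filter (fun e => D.u e = a ∧ D.fwd e = true)).card +
    (univ.filter (fun e => D.v e = a ∧ D.bwd e = true)).card

def Bi.KernelPerfect (D : Bi n m) : Prop :=
  ∀ S : Finset (Fin n), ∃ U ⊆ S, (∀ a ∈ U, ∀ b ∈ U, ¬ D.Arc a b) ∧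
    ∀ a ∈ S, a ∉ U → ∃ b ∈ U, D.Arc a b

/-- `C e` is a partial matching between the lists at the two ends of `e` -/
def IsCorr (D : Bi n m) (L : Fin n → Finset ℕ) (C : Fin m → Finset (ℕ × ℕ)) : Prop :=
  ∀ e, (∀ p ∈ C e, p.1 ∈ L (D.u e) ∧ p.2 ∈ L (D.v e)) ∧
    ∀ p ∈ C e, ∀ q ∈ C e, (p.1 = q.1 ↔ p.2 = q.2)

def Straight (M : Finset (ℕ × ℕ)) : Prop := ∀ p ∈ M, p.1 = p.2

def Colourable (D : Bi n m) (L : Fin n → Finset ℕ) (C : Fin m → Finset (ℕ × ℕ)) : Prop :=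
  ∃ φ : Fin n → ℕ, (∀ a, φ a ∈ L a) ∧ ∀ e, (φ (D.u e), φ (D.v e)) ∉ C e

def D0 : Bi 3 6 :=
  ⟨![0, 1, 2, 0, 1, 2], ![1, 2, 0, 1, 2, 0], by decide, fun _ => true,
    ![false, false, false, true, true, true], by decide⟩

def C0 : Fin 6 → Finset (ℕ × ℕ) := fun e =>
  if e < 3 then {(0, 0), (1, 1), (2, 2), (3, 3)} else {(0, 1), (1, 0), (2, 3), (3, 2)}

instance : DecidableRel D0.Arc := fun a b => by unfold Bi.Arc; infer_instance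

theorem result : ∃ (n m : ℕ) (D : Bi n m) (L : Fin n → Finset ℕ) (C : Fin m → Finset (ℕ × ℕ)),
    D.KernelPerfect ∧ IsCorr D L C ∧ (∀ e, ¬ Straight (C e) → ∀ c, (c, c) ∉ C e) ∧
    (∀ e, ¬ Straight (C e) → D.fwd e = true ∧ D.bwd e = true) ∧
    (∀ a, D.outdeg a + 1 ≤ (L a).card) ∧ ¬ Colourable D L C := by
  refine ⟨3, 6, D0, fun _ => {0, 1, 2, 3}, C0, ?_, ?_, ?_, ?_, ?_, ?_⟩
  · unfold Bi.KernelPerfect
    decide +kernel
  · unfold IsCorr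
    decide +kernel
  · intro e he c hc
    have : ∀ e, ¬ (∀ p ∈ C0 e, p.1 = p.2) → ∀ p ∈ C0 e, p.1 ≠ p.2 := by decide +kernel
    exact this e he _ hc rfl
  · unfold Straight
    decide +kernel
  · decide +kernel
  · rintro ⟨φ, h1, h2⟩
    have key : ∀ a ∈ ({0, 1, 2, 3} : Finset ℕ), ∀ b ∈ ({0, 1, 2, 3} : Finset ℕ),
        ∀ c ∈ ({0, 1, 2, 3} : Finset ℕ), (a, b) ∈ C0 0 ∨ (b, c) ∈ C0 1 ∨ (c, a) ∈ C0 2 ∨
          (a, b) ∈ C0 3 ∨ (b, c) ∈ C0 4 ∨ (c, a) ∈ C0 5 := by decide +kernel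
    rcases key _ (h1 0) _ (h1 1) _ (h1 2) with h | h | h | h | h | h
    exacts [h2 0 h, h2 1 h, h2 2 h, h2 3 h, h2 4 h, h2 5 h]

end Pool.Agent.Results.MP_201e5f_co.Cex
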